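import Pool.Agent.H435Z.P5.Defs
import Pool.Agent.H435Z.P5.Main

set_option autoImplicit false

namespace Pool.Agent.Results.MP_33dc3a_co.AClassification

open Pool.Agent.H435Z.P5

/-- For a graph `H` on five vertices, there are finitely many `k`-vertex-critical `(P₅, H)`-free
graphs for every `k ≥ 1` exactly when `H` has no induced `2 P₂`, `K₃ + P₁`, `C₅` or `K₅`. -/
theorem result (H : SimpleGraph (Fin 5)) :
    (∀ k : ℕ, 1 ≤ k → (crit k H).Finite) ↔
      (¬ twoP2.IsIndContained H ∧ ¬ trianglePlusP1.IsIndContained H ∧
        ¬ (SimpleGraph.cycleGraph 5).IsIndContained H ∧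
        ¬ (SimpleGraph.completeGraph (Fin 5)).IsIndContained H) :=
  classification H

end Pool.Agent.Results.MP_33dc3a_co.AClassification
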